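import Pool.Agent.H319R3.LittlewoodB

set_option autoImplicit false
open Filter Polynomial

namespace Pool.Agent.Results.MP_efea25_an.ManyRealZeros

/-- Littlewood polynomials of degree `n`: all coefficients `a_0, ..., a_n` are `1` or `-1`. -/
def IsLittlewood (n : ℕ) (p : ℝ[X]) : Prop :=
  p.natDegree = n ∧ ∀ j ≤ n, p.coeff j = 1 ∨ p.coeff j = -1

/-- The number of zeros of `p` in `[-1, 1]`, counted with multiplicity. -/
noncomputable def zerosIcc (p : ℝ[X]) : ℕ := (p.roots.filter (fun x => -1 ≤ x ∧ x ≤ 1)).card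

/-- The number of distinct zeros of `p` in the open interval `(0, 1)`. -/
noncomputable def distinctZerosIoo (p : ℝ[X]) : ℕ :=
  (p.roots.toFinset.filter (fun x => 0 < x ∧ x < 1)).card

lemma distinct_le (p : ℝ[X]) : distinctZerosIoo p ≤ zerosIcc p := by
  unfold distinctZerosIoo zerosIcc
  have h1 : (p.roots.toFinset.filter (fun x => 0 < x ∧ x < 1)) ⊆
      (p.roots.filter (fun x => -1 ≤ x ∧ x ≤ 1)).toFinset := by
    intro x hx
    rw [Finset.mem_filter, Multiset.mem_toFinset] at hx
    rw [Multiset.mem_toFinset, Multiset.mem_filter]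
    exact ⟨hx.1, by linarith [hx.2.1], hx.2.2.le⟩
  exact (Finset.card_le_card h1).trans (Multiset.toFinset_card_le _)

/-- Q2 is false: there is no constant `c` such that every Littlewood polynomial of degree `n ≥ 2`
has at most `c log n` zeros in `[-1, 1]`. In fact, for every `c` and all sufficiently large `n`
some Littlewood polynomial of degree `n` has more than `c log n` distinct zeros in `(0, 1)`. -/
theorem result :
    (¬ ∃ c : ℝ, 0 < c ∧ ∀ n : ℕ, 2 ≤ n → ∀ p : ℝ[X], IsLittlewood n p →
      (zerosIcc p : ℝ) ≤ c * Real.log n) ∧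
    ∀ c : ℝ, ∀ᶠ n : ℕ in atTop, ∃ p : ℝ[X], IsLittlewood n p ∧
      c * Real.log n < (distinctZerosIoo p : ℝ) := by
  have key : ∀ c : ℝ, ∀ᶠ n : ℕ in atTop, ∃ p : ℝ[X], IsLittlewood n p ∧
      c * Real.log n < (distinctZerosIoo p : ℝ) := by
    intro c
    have h := H319R3.Littlewood.main (c := max c 1) (by positivity)
    filter_upwards [h, eventually_ge_atTop 1] with n hn hn1
    obtain ⟨l, hl⟩ := hn
    refine ⟨H319R3.Littlewood.lp l n, ⟨H319R3.Littlewood.lp_natDegree l n, ?_⟩, ?_⟩
    · intro j hj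
      rw [H319R3.Littlewood.lp_coeff, if_pos hj]
      exact H319R3.Littlewood.hs_cases l _
    · refine lt_of_le_of_lt ?_ hl
      have : 0 ≤ Real.log n := Real.log_nonneg (by exact_mod_cast hn1)
      gcongr
      exact le_max_left c 1
  refine ⟨?_, key⟩
  rintro ⟨c, -, hc⟩
  obtain ⟨n, ⟨p, hp, hlt⟩, hn⟩ := ((key c).and (eventually_ge_atTop 2)).exists
  have h1 := hc n hn p hp
  have h2 : (distinctZerosIoo p : ℝ) ≤ zerosIcc p := by exact_mod_cast distinct_le p
  linarith

end Pool.Agent.Results.MP_efea25_an.ManyRealZeros
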